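import Pool.Agent.K6.H31.WC.Final

/-!
# The weak and the strong closure of the homeomorphisms differ for all `n ≥ 3` and all `1 ≤ p < ∞`

`Ω` and `Ω'` are bounded domains (connected open sets): an upper half ball to which small rooms
(handles) `R_j` of size about `4^{-j}` are attached, accumulating at one boundary point. The room `R_j`
contains a corridor which winds `64 · 4^j` times around an axis, so that each loop which runs through it
has length at least `1`; the room `R_0` of `Ω` has a straight corridor, and `Ω'` has the rooms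
`R_1, R_2, …` only. The homeomorphisms `f_k` move the room `R_0` into the place of `R_k`, fix `R_j`,
`1 ≤ j < k`, and map `R_j` onto `R_{j+1}`, `j ≥ k`; they are Lipschitz with a common constant. They converge
weakly to a map which vanishes near `R_0`, while every homeomorphism `g` of `Ω` onto `Ω'` has
`∫ |Dg| ≥ c > 0` near `R_0`: otherwise it would map some circle through the corridor of `R_0` onto a loop
of length less than `1`, which is homologically trivial in `Ω'`.
-/

set_option autoImplicit false

open Set Filter Topology MeasureTheory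
open scoped ContDiff ENNReal

namespace Pool.Agent.Results.MP_a6162f_an.AllExponentsDomains

open Pool.Agent.K6.H31.WS

/-- For every `n ≥ 3` there are bounded domains `Ω, Ω' ⊆ ℝⁿ` and a map `f` such that for every
`1 ≤ p < ∞` the map `f` is a weak limit in `W^{1,p}` of homeomorphisms of `Ω` onto `Ω'`, but not a strong
limit of such homeomorphisms. -/
theorem result (n : ℕ) (hn : 3 ≤ n) :
    ∃ (Ω Ω' : Set (EuclideanSpace ℝ (Fin n)))
      (f : EuclideanSpace ℝ (Fin n) → EuclideanSpace ℝ (Fin n)),
      IsOpen Ω ∧ IsConnected Ω ∧ Bornology.IsBounded Ω ∧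
      IsOpen Ω' ∧ IsConnected Ω' ∧ Bornology.IsBounded Ω' ∧
      ∀ p : ℝ≥0∞, 1 ≤ p → p ≠ ⊤ → f ∈ weakClosure p Ω Ω' ∧ f ∉ strongClosure p Ω Ω' := by
  obtain ⟨m, rfl⟩ : ∃ m, n = m + 3 := ⟨n - 3, by omega⟩
  exact ⟨Pool.Agent.K6.H31.WC.E1 m, Pool.Agent.K6.H31.WC.E2 m, Pool.Agent.K6.H31.WC.flim, Pool.Agent.K6.H31.WC.E1_open, Pool.Agent.K6.H31.WC.E1_connected, Pool.Agent.K6.H31.WC.E1_bounded, Pool.Agent.K6.H31.WC.E2_open,
    Pool.Agent.K6.H31.WC.E2_connected, Pool.Agent.K6.H31.WC.E2_bounded, fun p hp _ => ⟨Pool.Agent.K6.H31.WC.flim_weak p, Pool.Agent.K6.H31.WC.flim_not_strong p hp⟩⟩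

end Pool.Agent.Results.MP_a6162f_an.AllExponentsDomains
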