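import Pool.Agent.K6.H31.WT.Conn

/-!
# The weak and the strong closure of the homeomorphisms differ on smooth tubes for all integers
`2 ≤ p ≤ n - 1`

`Ω = Ω'` is the round tube of radius `1/2` about the unit sphere `S^p` of `ℝ^{p+1} × {0} ⊆ ℝⁿ`, a connected
bounded domain with smooth boundary. The homeomorphisms act on `S^p` by the conformal maps which converge
to a constant and on the normal discs of radius `1/4` by a scaling by `ε_k → 0`. They converge weakly in
`W^{1,p}` to a map `f` which is constant on the tube of radius `1/4`, while every homeomorphism `g` of `Ω`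
has `∫ |Dg|^p ≥ c > 0` over this smaller tube, since it maps each of the spheres parallel to `S^p` onto a
cycle whose radial projection covers `S^p`.
-/

set_option autoImplicit false

open Set Filter Topology MeasureTheory
open scoped ContDiff ENNReal

namespace Pool.Agent.Results.MP_a6162f_an.IntegerExponentsTube

open Pool.Agent.K6.H31.WS Pool.Agent.K6.H31.WT

/-- For all integers `2 ≤ p < n` the weak `W^{1,p}` closure of the homeomorphisms of the tube
`{x ∈ ℝⁿ : (√(x₀² + ⋯ + x_p²) - 1)² + x_{p+1}² + ⋯ + x_{n-1}² < 1/4}` onto itself is strictly larger than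
the strong closure. -/
theorem result (n p : ℕ) (h2 : 2 ≤ p) (hp : p < n) :
    IsOpen (tube n p) ∧ Bornology.IsBounded (tube n p) ∧ IsConnected (tube n p) ∧
      ∃ f : EuclideanSpace ℝ (Fin n) → EuclideanSpace ℝ (Fin n),
        f ∈ weakClosure (p : ℝ≥0∞) (tube n p) (tube n p) ∧
          f ∉ strongClosure (p : ℝ≥0∞) (tube n p) (tube n p) := by
  refine ⟨?_, ?_, tube_connected (by omega) hp, Flim (VV n p) (e0 (n := n) (by omega)), ?_, ?_⟩
  · rw [tube_eq]
    exact TT_open p
  · rw [tube_eq]
    exact TT_bounded p
  · rw [tube_eq]
    exact flim_weak' h2 hp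
  · rw [tube_eq]
    exact flim_not_strong' h2 hp

end Pool.Agent.Results.MP_a6162f_an.IntegerExponentsTube
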